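import Mathlib
import Pool.Agent.Helper77.HK.Chart
import Pool.Agent.Helper64.HK.BdDeg

/-!
# The equation over the chart has no rational root if the branch form is not a square

* `ns_of_bdp`: for all `k`, `m`: if `det` is not zero and the branch form `bd` over the chart is not
  a square, then `NS`.
* `bdp_not_sq`: if `bd` is not a square on a line of the chart then it is not a square.
* `G6 b = 0` if `b = r ^ 2` with `deg r ≤ 3`.
-/

set_option autoImplicit false

namespace Pool.Agent.Helper77.N2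

open Pool.Agent.Helper64.HK Pool.Agent.Helper77.HK MvPolynomial
open Pool.Agent.Helper28.HN (I aff)

variable {k m : ℕ} {a : Fin (k + 1) → Fin (m + 1)}

/-- The branch form over the chart. -/
noncomputable def bdp {K : Type*} [CommRing K] (c : Ix a → K) :
    MvPolynomial (Fin k × Fin (m + 1)) K := bd (fun e => C (c e)) (ct X)

theorem sq_sub_p {K : Type*} [CommRing K] (c : Ix a → K) :
    Bp c ^ 2 - Ap c * Cp c = Dp c ^ 2 * bdp c :=
  sq_sub (fun e => C (c e)) (ct X)

theorem ns_of_bdp {K : Type*} [Field K] (c : Ix a → K) (hD : Dp c ≠ 0)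
    (hb : ∀ w, bdp c ≠ w ^ 2) : NS c := by
  have key : ∀ p q : MvPolynomial (Fin k × Fin (m + 1)) K, q ≠ 0 →
      p ^ 2 = Dp c ^ 2 * bdp c * q ^ 2 → False := by
    intro p q hq h
    have hne : Dp c * q ≠ 0 := mul_ne_zero hD hq
    have h1 : (Dp c * q) ^ 2 ∣ p ^ 2 := ⟨bdp c, by rw [h]; ring⟩
    obtain ⟨w, hw⟩ := (IsIntegrallyClosed.pow_dvd_pow_iff two_ne_zero).1 h1
    refine hb w ?_
    have h2 : (Dp c * q) ^ 2 * bdp c = (Dp c * q) ^ 2 * w ^ 2 := by
      rw [← mul_pow, ← hw, h]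
      ring
    exact mul_left_cancel₀ (pow_ne_zero 2 hne) h2
  intro r0 r1 h
  have hs := sq_sub_p c
  by_cases h1 : r1 = 0
  · refine ⟨?_, h1⟩
    by_contra h0
    have hA : Ap c = 0 := by
      rw [h1] at h
      have h2 : Ap c * r0 ^ 2 = 0 := by linear_combination h
      exact (mul_eq_zero.1 h2).resolve_right (pow_ne_zero 2 h0)
    refine key (Bp c) 1 one_ne_zero ?_
    rw [← hs, hA]
    ring
  · exact (key (Ap c * r0 - Bp c * r1) r1 h1 (by
      rw [← hs]
      linear_combination Ap c * h)).elim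

/-- The branch form on a line. -/
noncomputable def bl {K : Type*} [CommRing K] (c : Ix a → K) (u v : Fin k × Fin (m + 1) → K) :
    Polynomial K :=
  bd (fun e => Polynomial.C (c e)) (ct fun e => Polynomial.C (u e) + Polynomial.X *
    Polynomial.C (v e))

theorem e2_bdp {K : Type*} [CommRing K] (c : Ix a → K) (u v : Fin k × Fin (m + 1) → K) :
    eval₂Hom Polynomial.C (fun e => Polynomial.C (u e) + Polynomial.X * Polynomial.C (v e))
      (bdp c) = bl c u v := by
  rw [bdp, map_bd, e2_c, e2_ct]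
  rfl

/-- If the branch form is not a square on a line, then `NS`. -/
theorem ns_of_line {K : Type*} [Field K] (c : Ix a → K) (hD : Dp c ≠ 0)
    (u v : Fin k × Fin (m + 1) → K) (hb : ∀ w, bl c u v ≠ w ^ 2) : NS c := by
  refine ns_of_bdp c hD fun w hw => ?_
  refine hb (eval₂Hom Polynomial.C (fun e => Polynomial.C (u e) + Polynomial.X *
    Polynomial.C (v e)) w) ?_
  rw [← e2_bdp, hw, map_pow]

/-- The fourth coefficient of the square root. -/
def G6 {S : Type*} [CommRing S] (b : Polynomial S) : S :=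
  64 * b.coeff 4 * b.coeff 0 ^ 3 - 32 * b.coeff 1 * b.coeff 3 * b.coeff 0 ^ 2 -
    16 * b.coeff 2 ^ 2 * b.coeff 0 ^ 2 + 24 * b.coeff 1 ^ 2 * b.coeff 2 * b.coeff 0 -
    5 * b.coeff 1 ^ 4

theorem map_G6 {S S' : Type*} [CommRing S] [CommRing S'] (f : S →+* S') (b : Polynomial S) :
    f (G6 b) = G6 (b.map f) := by
  simp only [G6, map_sub, map_add, map_mul, map_pow, Polynomial.coeff_map, map_ofNat]

theorem G6_sq {K : Type*} [Field K] (w : Polynomial K) (h : (w ^ 2).natDegree ≤ 6) :
    G6 (w ^ 2) = 0 := by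
  have hw : w.natDegree ≤ 3 := by
    rw [Polynomial.natDegree_pow] at h
    omega
  have h4 : w.coeff 4 = 0 := Polynomial.coeff_eq_zero_of_natDegree_lt (by omega)
  have e0 : (w ^ 2).coeff 0 = w.coeff 0 ^ 2 := by
    rw [sq, Polynomial.mul_coeff_zero]
    ring
  have e1 : (w ^ 2).coeff 1 = 2 * w.coeff 0 * w.coeff 1 := by
    rw [sq, Polynomial.coeff_mul]
    simp [Finset.Nat.antidiagonal_succ]
    ring
  have e2 : (w ^ 2).coeff 2 = 2 * w.coeff 0 * w.coeff 2 + w.coeff 1 ^ 2 := by
    rw [sq, Polynomial.coeff_mul]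
    simp [Finset.Nat.antidiagonal_succ]
    ring
  have e3 : (w ^ 2).coeff 3 = 2 * w.coeff 0 * w.coeff 3 + 2 * w.coeff 1 * w.coeff 2 := by
    rw [sq, Polynomial.coeff_mul]
    simp [Finset.Nat.antidiagonal_succ]
    ring
  have e4 : (w ^ 2).coeff 4 = 2 * w.coeff 0 * w.coeff 4 + 2 * w.coeff 1 * w.coeff 3 +
      w.coeff 2 ^ 2 := by
    rw [sq, Polynomial.coeff_mul]
    simp [Finset.Nat.antidiagonal_succ]
    ring
  rw [G6, e0, e1, e2, e3, e4, h4]
  ring

end Pool.Agent.Helper77.N2
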