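import Mathlib
import Pool.Agent.Helper77.N2.Ns
import Pool.Agent.Helper36.H3.Ex1

/-!
# Products of projective planes: the equation over the chart has no rational root

The example: with `y` the factor `0` and `x` the factor `j1 + 1`, the form `a 0` is
`y1 ^ 2 - y0 ^ 2 x1` and the other form is `y2`, both multiplied by powers of the first coordinates
of the other factors. The branch form over the chart is `4 x1`.
-/

set_option autoImplicit false

namespace Pool.Agent.Helper77.N2

open Pool.Agent.Helper64.HK Pool.Agent.Helper77.HK MvPolynomial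
open Pool.Agent.Helper36.H3 (Mf_add Mf_single_self Mf_single_ne)
open Pool.Agent.Helper28.HN (I aff)

section ex

variable {k : ℕ} (a : Fin (k + 1) → Fin (1 + 1)) (S : Type*) [CommRing S] (j1 : Fin k)

/-- The example. -/
def c2 : Ix a → S :=
  Pi.single (⟨a 0, fun j => if j = 0 then 1 else 0, fun j => if j.1 = 0 then 1 else 0⟩ : Ix a) 1 +
  Pi.single (⟨a 0, fun j => if j = j1.succ then 1 else 0, fun _ => 0⟩ : Ix a) (-1) +
  Pi.single (⟨(a 0).succAbove 0, fun j => if j = 0 then 2 else 0, fun _ => 0⟩ : Ix a) 1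

variable {a S} {U V : Fin (k + 1) → I 1 → S}

theorem prod_one (hU : ∀ j : Fin k, U j.succ 0 = 1) (i : I 1) :
    ∏ j, U j (if j = 0 then i else 0) = U 0 i := by
  rw [Fin.prod_univ_succ, if_pos rfl]
  have : ∀ j : Fin k, U j.succ (if j.succ = 0 then i else 0) = 1 := fun j => by
    rw [if_neg (Fin.succ_ne_zero j), hU]
  rw [Finset.prod_eq_one fun j _ => this j, mul_one]

theorem prod_two (hV : ∀ j : Fin k, V j.succ 0 = 1) (i : I 1) :
    ∏ j : {j // a j = a 0}, V j.1 (if j.1 = 0 then i else 0) = V 0 i := by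
  rw [Finset.prod_eq_single (⟨0, rfl⟩ : {j // a j = a 0})]
  · rw [if_pos rfl]
  · rintro ⟨j, hj⟩ _ h
    have hj0 : j ≠ 0 := fun e => h (Subtype.ext e)
    obtain ⟨j', rfl⟩ := Fin.exists_succ_eq.2 hj0
    rw [if_neg hj0, hV]
  · intro h
    exact absurd (Finset.mem_univ _) h

theorem prod_three (hU : ∀ j : Fin k, U j.succ 0 = 1) :
    ∏ j, U j (if j = j1.succ then 1 else 0) = U 0 0 * U j1.succ 1 := by
  rw [Fin.prod_univ_succ, if_neg (Fin.succ_ne_zero j1).symm]
  congr 1
  rw [Finset.prod_eq_single j1]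
  · rw [if_pos rfl]
  · intro j _ h
    rw [if_neg fun e => h (Fin.succ_injective _ e), hU]
  · intro h
    exact absurd (Finset.mem_univ _) h

theorem prod_four (hV : ∀ j : Fin k, V j.succ 0 = 1) :
    ∏ j : {j // a j = (a 0).succAbove 0}, V j.1 0 = 1 := by
  refine Finset.prod_eq_one ?_
  rintro ⟨j, hj⟩ _
  have hj0 : j ≠ 0 := by
    rintro rfl
    exact Fin.succAbove_ne (a 0) 0 hj.symm
  obtain ⟨j', rfl⟩ := Fin.exists_succ_eq.2 hj0
  exact hV j'

theorem Mf_zero' (hU : ∀ j : Fin k, U j.succ 0 = 1) (hV : ∀ j : Fin k, V j.succ 0 = 1) :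
    Mf (c2 a S j1) (a 0) U V = U 0 1 * V 0 1 - U 0 0 * U j1.succ 1 * V 0 0 := by
  have h2 := prod_two (a := a) hV 0
  simp only [ite_self] at h2
  rw [c2, Mf_add, Mf_add, Mf_single_self, Mf_single_self, Mf_single_ne
    (Fin.succAbove_ne (a 0) 0).symm, prod_one hU, prod_two hV, prod_three j1 hU, h2]
  ring

theorem Mf_one' (hU : ∀ j : Fin k, U j.succ 0 = 1) (hV : ∀ j : Fin k, V j.succ 0 = 1) :
    Mf (c2 a S j1) ((a 0).succAbove 0) U V = U 0 2 := by
  rw [c2, Mf_add, Mf_add, Mf_single_self, Mf_single_ne (Fin.succAbove_ne (a 0) 0),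
    Mf_single_ne (Fin.succAbove_ne (a 0) 0), prod_one hU, prod_four hV]
  ring

theorem upd_ct (u : Fin k × Fin (1 + 1) → S) (v : I 1 → S) (j : Fin k) :
    Function.update (ct u) 0 v j.succ 0 = 1 := by
  rw [Function.update_of_ne (Fin.succ_ne_zero j)]
  simp [ct, aff]

theorem Pf_c2 (u : Fin k × Fin (1 + 1) → S) (v w : I 1 → S) :
    Pf (c2 a S j1) 0 (ct u) v w = 2 * (v 1 * w 1 - v 0 * w 0 * u (j1, 0)) := by
  have h : ∀ v : I 1 → S, Function.update (ct u) 0 v j1.succ 1 = u (j1, 0) := by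
    intro v
    rw [Function.update_of_ne (Fin.succ_ne_zero j1)]
    simp [ct, aff]
  rw [Pf, Mf_zero' j1 (upd_ct u v) (upd_ct u w), Mf_zero' j1 (upd_ct u w) (upd_ct u v), h, h,
    Function.update_self, Function.update_self]
  ring

theorem rf_c2 (u : Fin k × Fin (1 + 1) → S) (r : Fin 1) (v : I 1 → S) :
    rf (c2 a S j1) 0 (ct u) r v = v 2 := by
  obtain rfl : r = 0 := Subsingleton.elim _ _
  rw [rf, Ef, Mf_one' j1 (upd_ct u v) (upd_ct u v), Function.update_self]

theorem det_c2 (u : Fin k × Fin (1 + 1) → S) : (Mx (c2 a S j1) (ct u)).det = 1 := by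
  rw [Matrix.det_fin_one, Mx, rf_c2]
  exact Pi.single_eq_same (M := fun _ => S) _ _

theorem bd_c2 (u : Fin k × Fin (1 + 1) → S) : bd (c2 a S j1) (ct u) = 4 * u (j1, 0) := by
  have h := sq_sub (c2 a S j1) (ct u)
  rw [det_c2, Ah, Bh, Ch, Pf_c2, Pf_c2, Pf_c2, Y0_zero, Y0_one, Y1_zero, Y1_one, det_c2] at h
  linear_combination -h

end ex

section line

variable {k m : ℕ} {a : Fin (k + 1) → Fin (m + 1)} {S : Type*} [CommRing S]

theorem map_bl {S' : Type*} [CommRing S'] (f : S →+* S') (c : Ix a → S)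
    (u v : Fin k × Fin (m + 1) → S) :
    (bl c u v).map f = bl (fun e => f (c e)) (fun e => f (u e)) fun e => f (v e) := by
  have h := map_bd (fun e => Polynomial.C (c e)) (Polynomial.mapRingHom f)
    (ct fun e => Polynomial.C (u e) + Polynomial.X * Polynomial.C (v e))
  rw [map_ct] at h
  have e1 : (fun e => Polynomial.mapRingHom f (Polynomial.C (c e))) =
      fun e => Polynomial.C (f (c e)) := by
    funext e
    simp
  have e2 : (fun e => Polynomial.mapRingHom f (Polynomial.C (u e) + Polynomial.X *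
      Polynomial.C (v e))) = fun e => Polynomial.C (f (u e)) + Polynomial.X *
        Polynomial.C (f (v e)) := by
    funext e
    simp
  rw [e1, e2] at h
  exact h

/-- The degree of the branch form on a line in one factor. -/
theorem deg_bl (c : Ix a → S) (u v : Fin k × Fin (m + 1) → S) (j : Fin k)
    (hv : ∀ e, e.1 ≠ j → v e = 0) : (bl c u v).natDegree ≤ 2 * (m + 2) := by
  have h : (ct fun e => Polynomial.C (u e) + Polynomial.X * Polynomial.C (v e) :
      Fin (k + 1) → I m → Polynomial S) = Pool.Agent.Helper64.HK.lp (ct u) j.succ (Fin.cons 0 fun i => v (j, i)) := by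
    funext l
    unfold Pool.Agent.Helper64.HK.lp
    refine Fin.cases ?_ (fun l => ?_) l
    · rw [Function.update_of_ne (Fin.succ_ne_zero j).symm]
      funext i
      simp [ct]
    · by_cases hl : l = j
      · subst hl
        rw [Function.update_self]
        funext i
        refine Fin.cases ?_ (fun i => ?_) i
        · simp [ct, aff]
        · simp [ct, aff]
      · rw [Function.update_of_ne fun e => hl (Fin.succ_injective _ e)]
        funext i
        refine Fin.cases ?_ (fun i => ?_) i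
        · simp [ct, aff]
        · simp [ct, aff, hv (l, i) hl]
  rw [bl, h]
  exact deg_bd c (ct u) j _

end line

/-- For general coefficients the equation over the chart has no rational root and the determinant
does not vanish. -/
theorem exists_ns2 {k : ℕ} (hk : 1 ≤ k) (a : Fin (k + 1) → Fin (1 + 1)) :
    ∃ Δ : MvPolynomial (Ix a) ℚ, Δ ≠ 0 ∧
    ∀ (K : Type) [Field K] [NumberField K] (c : Ix a → K), aeval c Δ ≠ 0 → NS c ∧ Dp c ≠ 0 := by
  obtain ⟨j1⟩ : Nonempty (Fin k) := ⟨⟨0, hk⟩⟩
  have key : ∀ (K : Type) [Field K] [Algebra ℚ K] (c : Ix a → K),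
      aeval c (G6 (bl (X : Ix a → MvPolynomial (Ix a) ℚ) (fun _ => 0)
        fun e => if e = (j1, 0) then 1 else 0) *
          (Mx (X : Ix a → MvPolynomial (Ix a) ℚ) (ct fun _ => 0)).det) =
      G6 (bl c (fun _ => 0) fun e => if e = (j1, 0) then 1 else 0) *
        (Mx c (ct fun _ => 0)).det := by
    intro K _ _ c
    have h1 := map_G6 (aeval c : MvPolynomial (Ix a) ℚ →ₐ[ℚ] K).toRingHom
      (bl (X : Ix a → MvPolynomial (Ix a) ℚ) (fun _ => 0) fun e => if e = (j1, 0) then 1 else 0)
    have h2 := map_det_Mx (X : Ix a → MvPolynomial (Ix a) ℚ)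
      (aeval c : MvPolynomial (Ix a) ℚ →ₐ[ℚ] K).toRingHom (ct fun _ => 0)
    rw [map_bl] at h1
    rw [map_ct] at h2
    have e1 : (fun e => (aeval c : MvPolynomial (Ix a) ℚ →ₐ[ℚ] K).toRingHom (X e)) = c := by
      funext e
      simp
    have e2 : (fun e : Fin k × Fin (1 + 1) => (aeval c : MvPolynomial (Ix a) ℚ →ₐ[ℚ] K).toRingHom
        (if e = (j1, 0) then 1 else 0)) = fun e => if e = (j1, 0) then 1 else 0 := by
      funext e
      split_ifs
      · exact map_one _
      · exact map_zero _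
    rw [e1, e2] at h1
    rw [e1] at h2
    simp only [map_zero] at h1 h2
    rw [map_mul]
    exact congrArg₂ (· * ·) h1 h2
  obtain ⟨Δ, hΔ⟩ : ∃ Δ, Δ = G6 (bl (X : Ix a → MvPolynomial (Ix a) ℚ) (fun _ => 0)
        fun e => if e = (j1, 0) then 1 else 0) *
          (Mx (X : Ix a → MvPolynomial (Ix a) ℚ) (ct fun _ => 0)).det := ⟨_, rfl⟩
  rw [← hΔ] at key
  refine ⟨Δ, ?_, fun K _ _ c hc => ?_⟩
  rotate_left
  · rw [key K c] at hc
    obtain ⟨h1, h2⟩ := mul_ne_zero_iff.1 hc
    have hD : Dp c ≠ 0 := by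
      intro h0
      refine h2 ?_
      rw [← eval_Dp, h0, map_zero]
    refine ⟨ns_of_line c hD (fun _ => 0) (fun e => if e = (j1, 0) then 1 else 0) fun w hw => ?_,
      hD⟩
    refine h1 ?_
    rw [hw]
    refine G6_sq w ?_
    rw [← hw]
    refine (deg_bl c _ _ j1 fun e he => ?_)
    rw [if_neg]
    rintro rfl
    exact he rfl
  · intro h0
    have h := key ℚ (c2 a ℚ j1)
    rw [h0, map_zero, det_c2, mul_one] at h
    have hb : bl (c2 a ℚ j1) (fun _ => 0) (fun e => if e = (j1, 0) then 1 else 0) =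
        4 * Polynomial.X := by
      have hc : (fun e => Polynomial.C (c2 a ℚ j1 e)) = c2 a (Polynomial ℚ) j1 := by
        funext e
        simp only [c2, Pi.add_apply, Polynomial.C_add]
        rw [Pool.Agent.Helper36.H3.map_single, Pool.Agent.Helper36.H3.map_single,
          Pool.Agent.Helper36.H3.map_single]
        simp
      rw [bl, hc, bd_c2]
      simp
    rw [hb] at h
    have e4 : (4 : Polynomial ℚ) = Polynomial.C 4 := (map_ofNat Polynomial.C 4).symm
    rw [G6, e4] at h
    simp [Polynomial.coeff_X] at h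

end Pool.Agent.Helper77.N2
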